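import Mathlib

set_option autoImplicit false

namespace Pool.Agent.H.MP_562107_co

open Finset

def ok (c d : ℤ × ℤ) : Prop := |d.1 - c.1| = 1 ∧ |d.2 - c.2| = 1 ∧ |d.1 - d.2| = 1

def nx (c : ℤ × ℤ) : Finset (ℤ × ℤ) := {(c.2, 2 * c.2 - c.1), (2 * c.1 - c.2, c.1), (c.2, c.1)}

theorem mem_nx {c d : ℤ × ℤ} (h : |c.1 - c.2| = 1) : d ∈ nx c ↔ ok c d := by
  simp only [nx, ok, mem_insert, mem_singleton, Prod.ext_iff, abs_eq zero_le_one] at *
  omega

def W : (n : ℕ) → ℤ × ℤ → Finset (Fin (n + 1) → ℤ × ℤ)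
  | 0, c => {fun _ => c}
  | n + 1, c => (nx c).biUnion fun d => (W n d).image (Fin.cons c)

theorem mem_W (n : ℕ) (c : ℤ × ℤ) (h : |c.1 - c.2| = 1) (g : Fin (n + 1) → ℤ × ℤ) :
    g ∈ W n c ↔ g 0 = c ∧ ∀ j : Fin n, ok (g j.castSucc) (g j.succ) := by
  induction n generalizing c with
  | zero => simp [W, funext_iff]
  | succ n ih =>
    simp only [W, mem_biUnion, mem_image, mem_nx h, Fin.forall_fin_succ]
    constructor
    · rintro ⟨d, hd, f, hf, rfl⟩
      obtain ⟨rfl, k⟩ := (ih d hd.2.2 f).1 hf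
      exact ⟨rfl, hd, k⟩
    · rintro ⟨rfl, a, b⟩
      exact ⟨_, a, Fin.tail g, (ih _ a.2.2 _).2 ⟨rfl, b⟩, Fin.cons_self_tail g⟩

open Classical in
noncomputable def ex {n : ℕ} (f : Prop) (a b : Fin (n + 1) → ℤ) : ℕ :=
  ∑ j : Fin (n + 1), if (j = 0 → f) ∧ ∀ k : Fin (n + 1), (j.val + 1 = k ∨ k.val + 1 = j) → a k = b j
    then 1 else 0

open Classical in
theorem ex_succ {n : ℕ} (f : Prop) (a b : Fin (n + 2) → ℤ) : ex f a b =
    (if f ∧ a 1 = b 0 then 1 else 0) + ex (a 0 = b 1) (Fin.tail a) (Fin.tail b) := by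
  rw [ex, Fin.sum_univ_succ]
  congr 1
  · refine if_congr (and_congr (by simp) ⟨fun h => h 1 (by simp), fun h k hk => ?_⟩) rfl rfl
    rwa [show k = 1 from Fin.ext (by simpa [eq_comm] using hk)]
  · refine sum_congr rfl fun j _ => @if_congr _ _ _ _ (_) _ _ _ _ ?_ rfl rfl
    rw [Fin.forall_fin_succ]
    simp only [Fin.succ_ne_zero, false_imp_iff, true_and, Fin.val_succ, Fin.val_zero,
      add_left_inj, Fin.tail]
    refine and_congr ⟨fun h e => ?_, fun h e => ?_⟩ Iff.rfl
    · subst e
      exact h (.inr rfl)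
    · obtain rfl : j = 0 := Fin.ext (by rw [Fin.val_zero]; omega)
      exact h rfl

def v : ℕ → Bool → Bool → ℕ → ℕ
  | 0, a, b, e => if a.toNat + b.toNat = e then 1 else 0
  | n + 1, a, b, e => (if a.toNat ≤ e then v n false true (e - a.toNat) else 0) +
    ((if b.toNat ≤ e then v n true false (e - b.toNat) else 0) +
    if a.toNat + b.toNat ≤ e then v n true true (e - (a.toNat + b.toNat)) else 0)

theorem shift {α : Type} (S : Finset α) (f : α → ℕ) (k e : ℕ) :
    #{g ∈ S | k + f g = e} = if k ≤ e then #{g ∈ S | f g = e - k} else 0 := by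
  split_ifs with h
  · exact congrArg card (filter_congr fun g _ => by omega)
  · exact card_eq_zero.2 (filter_eq_empty_iff.2 fun g _ => by omega)

theorem cnt (n : ℕ) (c : ℤ × ℤ) (h : |c.1 - c.2| = 1) (p q : Prop) (a b : Bool) (hp : p ↔ a)
    (hq : q ↔ b) (e : ℕ) : #{g ∈ W n c | ex p (fun j => (g j).1) (fun j => (g j).2) +
      ex q (fun j => (g j).2) (fun j => (g j).1) = e} = v n a b e := by
  classical
  induction n generalizing c p q a b e with
  | zero =>
    simp only [W, ex, v, hp, hq, filter_singleton, apply_ite card, card_singleton, card_empty]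
    cases a <;> cases b <;> simp
  | succ n ih =>
    rw [W, filter_biUnion, card_biUnion]
    · have k : ∀ d ∈ nx c, ∀ (a' b' : Bool) (t : ℕ), (c.1 = d.2 ↔ a') → (c.2 = d.1 ↔ b') →
          (if p ∧ d.1 = c.2 then 1 else 0) + (if q ∧ d.2 = c.1 then 1 else 0) = t →
          #{g ∈ (W n d).image (Fin.cons c : _ → Fin (n + 2) → ℤ × ℤ) |
            ex p (fun j => (g j).1) (fun j => (g j).2) +
            ex q (fun j => (g j).2) (fun j => (g j).1) = e} =
          if t ≤ e then v n a' b' (e - t) else 0 := by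
        intro d hd a' b' t ha hb ht
        have hd := ((mem_nx h).1 hd).2.2
        rw [filter_image, card_image_of_injective _ (Fin.cons_right_injective _),
          ← ih d hd _ _ a' b' ha hb, ← shift, ← ht]
        refine congrArg card (filter_congr fun g hg => ?_)
        obtain ⟨rfl, -⟩ := (mem_W n d hd g).1 hg
        rw [ex_succ, ex_succ, add_add_add_comm]
        rfl
      rw [abs_eq zero_le_one] at h
      rw [nx, sum_insert, sum_insert, sum_singleton, v, k _ (by simp [nx]) false true a.toNat,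
        k _ (by simp [nx]) true false b.toNat, k _ (by simp [nx]) true true (a.toNat + b.toNat)]
      all_goals simp only [hp, hq, mem_insert, mem_singleton, Prod.ext_iff]
      all_goals cases a <;> cases b <;> simp <;> omega
    · intro d hd d' hd' ne
      refine disjoint_left.2 fun g h1 h2 => ne ?_
      obtain ⟨f, hf, rfl⟩ := mem_image.1 (mem_filter.1 h1).1
      obtain ⟨f', hf', r⟩ := mem_image.1 (mem_filter.1 h2).1
      obtain rfl := Fin.cons_right_injective _ r
      exact ((mem_W n d ((mem_nx h).1 hd).2.2 _).1 hf).1.symm.trans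
        ((mem_W n d' ((mem_nx h).1 hd').2.2 _).1 hf').1

theorem aux (p q r : Prop) [Decidable p] [Decidable q] [Decidable r]
    {x3 x4 x5 x6 x7 x8 y3 y4 y5 y6 y7 y8 z3 z4 z5 z6 z7 z8 : ℕ}
    (hx : x8 + 10 * x6 + 5 * x4 = 5 * x7 + 10 * x5 + x3)
    (hy : y8 + 10 * y6 + 5 * y4 = 5 * y7 + 10 * y5 + y3)
    (hz : z8 + 10 * z6 + 5 * z4 = 5 * z7 + 10 * z5 + z3) :
    ((if p then x8 else 0) + ((if q then y8 else 0) + if r then z8 else 0)) +
    10 * ((if p then x6 else 0) + ((if q then y6 else 0) + if r then z6 else 0)) +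
    5 * ((if p then x4 else 0) + ((if q then y4 else 0) + if r then z4 else 0)) =
    5 * ((if p then x7 else 0) + ((if q then y7 else 0) + if r then z7 else 0)) +
    10 * ((if p then x5 else 0) + ((if q then y5 else 0) + if r then z5 else 0)) +
    ((if p then x3 else 0) + ((if q then y3 else 0) + if r then z3 else 0)) := by
  split_ifs <;> omega

theorem rec5 (n : ℕ) : ∀ (a b : Bool), ∀ e ≤ 4 + a.toNat + b.toNat,
    v (n + 8) a b e + 10 * v (n + 6) a b e + 5 * v (n + 4) a b e =
      5 * v (n + 7) a b e + 10 * v (n + 5) a b e + v (n + 3) a b e := by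
  induction n with
  | zero => decide +kernel
  | succ n ih =>
    intro a b e he
    have : a.toNat ≤ 1 := Bool.toNat_le a
    have : b.toNat ≤ 1 := Bool.toNat_le b
    have h1 := ih false true (e - a.toNat) (by simp; omega)
    have h2 := ih true false (e - b.toNat) (by simp; omega)
    have h3 := ih true true (e - (a.toNat + b.toNat)) (by simp; omega)
    simp only [add_right_comm n 1]
    rw [v, v, v, v, v, v]
    exact aux _ _ _ h1 h2 h3

end Pool.Agent.H.MP_562107_co
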